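import Mathlib

set_option autoImplicit false

/-!
Colourings computed by circuits with few negations.
-/

namespace Pool.Agent.V11201.NG

open Finset
open scoped Classical

/-- Boolean circuits with the inputs `I`, the gates `0, ..., size - 1`, NOT gates (the gates `i` with
`neg i`; the gate negates the input or earlier gate `arg i`), and further gates, each an arbitrary
nondecreasing Boolean function of the inputs and of the earlier gates. -/
structure NegCircuit (I : Type) where
  size : ℕ
  neg : Fin size → Prop
  arg : Fin size → I ⊕ Fin size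
  op : Fin size → (I → Bool) → (Fin size → Bool) → Bool
  val : (I → Bool) → Fin size → Bool
  arg_lt : ∀ i, neg i → ∀ j, arg i = Sum.inr j → j < i
  val_neg : ∀ i, neg i → ∀ x, val x i = !(Sum.elim x (val x) (arg i))
  mono : ∀ i, ¬ neg i → ∀ x y u v, x ≤ y → u ≤ v → op i x u ≤ op i y v
  val_op : ∀ i, ¬ neg i → ∀ x, val x i = op i x fun j => decide (j < i) && val x j

/-- the value of an input or gate -/
def NegCircuit.node {I : Type} (C : NegCircuit I) (x : I → Bool) (o : I ⊕ Fin C.size) : Bool :=
  Sum.elim x (C.val x) o

/-- the number of NOT gates -/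
noncomputable def NegCircuit.negations {I : Type} (C : NegCircuit I) : ℕ :=
  (univ.filter fun i => C.neg i).card

section

variable {r m : ℕ}

/-- the tuples with all entries between `a` and `b` -/
def InBox (a b : Fin m → Bool) (v : Fin r → Fin m → Bool) : Prop := ∀ i, a ≤ v i ∧ v i ≤ b

/-- the input of the circuit -/
def inp (v : Fin r → Fin m → Bool) : Fin r × Fin m → Bool := fun p => v p.1 p.2

/-- the free coordinates -/
def free (a b : Fin m → Bool) : Finset (Fin m) := univ.filter fun c => a c = false ∧ b c = true

theorem halve {a b : Fin m → Bool} (hab : a ≤ b) {d : ℕ} (hd : d ≤ (free a b).card)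
    (F : (Fin r → Fin m → Bool) → Bool)
    (hF : ∀ v w, InBox a b v → InBox a b w → v ≤ w → F v ≤ F w) :
    ∃ a' b', a ≤ a' ∧ a' ≤ b' ∧ b' ≤ b ∧ d / 2 ≤ (free a' b').card ∧
      ∃ t, ∀ v, InBox a' b' v → F v = t := by
  obtain ⟨T, hT, hTc⟩ := Finset.exists_subset_card_eq (s := free a b)
    (n := (free a b).card / 2) (Nat.div_le_self _ _)
  obtain ⟨x, hx⟩ : ∃ x : Fin m → Bool, x = fun c => a c || decide (c ∈ T) := ⟨_, rfl⟩
  have hax : a ≤ x := by
    intro c
    rw [hx]
    show a c ≤ (a c || decide (c ∈ T))
    cases a c <;> simp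
  have hxb : x ≤ b := by
    intro c
    have h1 := hab c
    rw [hx]
    by_cases hc : c ∈ T
    · have h2 := (mem_filter.1 (hT hc)).2.2
      rw [h2]
      exact Bool.le_true _
    · simpa [hc] using h1
  have hboxx : InBox (r := r) a b fun _ => x := fun _ => ⟨hax, hxb⟩
  cases hFx : F fun _ => x
  · refine ⟨a, x, le_refl a, hax, hxb, ?_, false, ?_⟩
    · have h1 : free a x = T := by
        ext c
        unfold free
        rw [mem_filter, hx]
        constructor
        · rintro ⟨-, h2, h3⟩
          simpa [h2] using h3
        · intro hc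
          have h2 := (mem_filter.1 (hT hc)).2.1
          exact ⟨mem_univ _, h2, by simp [hc]⟩
      rw [h1, hTc]
      exact Nat.div_le_div_right hd
    · intro v hv
      have h1 := hF v (fun _ => x) (fun i => ⟨(hv i).1, (hv i).2.trans hxb⟩) hboxx
        fun i => (hv i).2
      rw [hFx] at h1
      exact Bool.eq_false_of_le_false h1
  · refine ⟨x, b, hax, hxb, le_refl b, ?_, true, ?_⟩
    · have h1 : free x b = free a b \ T := by
        ext c
        unfold free
        rw [mem_filter, mem_sdiff, mem_filter, hx]
        constructor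
        · rintro ⟨-, h2, h3⟩
          rw [Bool.or_eq_false_iff, decide_eq_false_iff_not] at h2
          exact ⟨⟨mem_univ _, h2.1, h3⟩, h2.2⟩
        · rintro ⟨⟨-, h2, h3⟩, h4⟩
          exact ⟨mem_univ _, by simp [h2, h4], h3⟩
      rw [h1, card_sdiff_of_subset hT, hTc]
      omega
    · intro v hv
      have h1 := hF (fun _ => x) v hboxx (fun i => ⟨hax.trans (hv i).1, (hv i).2⟩)
        fun i => (hv i).1
      rw [hFx] at h1
      exact Bool.eq_true_of_true_le h1

/-- the NOT gates before the gate `k` are constant on the box -/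
def Const (C : NegCircuit (Fin r × Fin m)) (a b : Fin m → Bool) (k : ℕ) : Prop :=
  ∀ i : Fin C.size, i.val < k → C.neg i → ∀ v w, InBox a b v → InBox a b w →
    C.val (inp v) i = C.val (inp w) i

theorem mono_gate (C : NegCircuit (Fin r × Fin m)) {a b : Fin m → Bool} {k : ℕ}
    (hC : Const C a b k) {v w : Fin r → Fin m → Bool} (hv : InBox a b v) (hw : InBox a b w)
    (hvw : v ≤ w) : ∀ n : ℕ, ∀ i : Fin C.size, i.val = n → n < k →
      C.val (inp v) i ≤ C.val (inp w) i := by
  intro n
  induction n using Nat.strong_induction_on with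
  | _ n ih =>
    intro i hi hn
    by_cases hneg : C.neg i
    · exact le_of_eq (hC i (by omega) hneg v w hv hw)
    · rw [C.val_op i hneg, C.val_op i hneg]
      apply C.mono i hneg
      · intro p
        exact hvw p.1 p.2
      · intro j
        show (decide (j < i) && C.val (inp v) j) ≤ (decide (j < i) && C.val (inp w) j)
        by_cases hj : j < i
        · have h1 := ih j.val (by have : j.val < i.val := hj; omega) j rfl
            (by have : j.val < i.val := hj; omega)
          simpa [hj] using h1
        · simp [hj]

theorem mono_node (C : NegCircuit (Fin r × Fin m)) {a b : Fin m → Bool} {k : ℕ}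
    (hC : Const C a b k) (o : (Fin r × Fin m) ⊕ Fin C.size)
    (ho : ∀ j, o = Sum.inr j → j.val < k) (v w : Fin r → Fin m → Bool) (hv : InBox a b v)
    (hw : InBox a b w) (hvw : v ≤ w) : C.node (inp v) o ≤ C.node (inp w) o := by
  cases o with
  | inl p => exact hvw p.1 p.2
  | inr j => exact mono_gate C hC hv hw hvw j.val j rfl (ho j rfl)

theorem InBox.mono {a b a' b' : Fin m → Bool} (ha : a ≤ a') (hb : b' ≤ b)
    {v : Fin r → Fin m → Bool} (hv : InBox a' b' v) : InBox a b v :=
  fun i => ⟨ha.trans (hv i).1, (hv i).2.trans hb⟩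

theorem Const.mono {C : NegCircuit (Fin r × Fin m)} {a b a' b' : Fin m → Bool} {k : ℕ}
    (h : Const C a b k) (ha : a ≤ a') (hb : b' ≤ b) : Const C a' b' k :=
  fun i hi hn v w hv hw => h i hi hn v w (hv.mono ha hb) (hw.mono ha hb)

theorem gates (C : NegCircuit (Fin r × Fin m)) : ∀ k : ℕ, k ≤ C.size → ∃ a b, a ≤ b ∧
    m / 2 ^ (univ.filter fun i : Fin C.size => C.neg i ∧ i.val < k).card ≤ (free a b).card ∧
      Const C a b k := by
  intro k
  induction k with
  | zero =>
    intro _
    refine ⟨fun _ => false, fun _ => true, fun c => Bool.false_le _, ?_, ?_⟩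
    · have h1 : (univ.filter fun i : Fin C.size => C.neg i ∧ i.val < 0) = ∅ := by
        ext i
        simp
      have h2 : free (fun _ : Fin m => false) (fun _ => true) = univ := by
        ext c
        simp [free]
      rw [h1, h2, card_empty, card_univ, Fintype.card_fin, pow_zero, Nat.div_one]
    · intro i hi
      exact absurd hi (Nat.not_lt_zero _)
  | succ k ih =>
    intro hk
    obtain ⟨a, b, hab, hd, hC⟩ := ih (by omega)
    obtain ⟨i, hi⟩ : ∃ i : Fin C.size, i = ⟨k, by omega⟩ := ⟨_, rfl⟩
    have hik : i.val = k := by rw [hi]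
    by_cases hneg : C.neg i
    · obtain ⟨a', b', h1, h2, h3, h4, t, ht⟩ := halve (r := r) hab hd
        (fun v => C.node (inp v) (C.arg i))
        (fun v w hv hw hvw => mono_node C hC (C.arg i) (fun j hj => by
          have := C.arg_lt i hneg j hj
          have h5 : j.val < i.val := this
          omega) v w hv hw hvw)
      refine ⟨a', b', h2, ?_, ?_⟩
      · have h5 : (univ.filter fun i : Fin C.size => C.neg i ∧ i.val < k + 1) =
            insert i (univ.filter fun i : Fin C.size => C.neg i ∧ i.val < k) := by
          ext j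
          simp only [mem_filter, mem_univ, true_and, mem_insert]
          constructor
          · rintro ⟨h6, h7⟩
            rcases Nat.lt_succ_iff_lt_or_eq.1 h7 with h8 | h8
            · exact Or.inr ⟨h6, h8⟩
            · left
              exact Fin.ext (by rw [hik]; exact h8)
          · rintro (h6 | h6)
            · rw [h6]
              exact ⟨hneg, by omega⟩
            · exact ⟨h6.1, by omega⟩
        have h6 : i ∉ (univ.filter fun i : Fin C.size => C.neg i ∧ i.val < k) := by
          simp [hik]
        rw [h5, card_insert_of_notMem h6, pow_succ, ← Nat.div_div_eq_div_mul]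
        exact h4
      · intro j hj hjn v w hv hw
        rcases Nat.lt_succ_iff_lt_or_eq.1 hj with h8 | h8
        · exact hC.mono h1 h3 j h8 hjn v w hv hw
        · have hji : j = i := Fin.ext (by rw [hik]; exact h8)
          subst hji
          rw [C.val_neg _ hjn, C.val_neg _ hjn]
          have e1 := ht v hv
          have e2 := ht w hw
          unfold NegCircuit.node at e1 e2
          rw [e1, e2]
    · refine ⟨a, b, hab, ?_, ?_⟩
      · have h5 : (univ.filter fun i : Fin C.size => C.neg i ∧ i.val < k + 1) =
            (univ.filter fun i : Fin C.size => C.neg i ∧ i.val < k) := by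
          ext j
          simp only [mem_filter, mem_univ, true_and]
          constructor
          · rintro ⟨h6, h7⟩
            refine ⟨h6, ?_⟩
            rcases Nat.lt_succ_iff_lt_or_eq.1 h7 with h8 | h8
            · exact h8
            · exact absurd (by rwa [show j = i from Fin.ext (by rw [hik]; exact h8)] at h6) hneg
          · rintro ⟨h6, h7⟩
            exact ⟨h6, by omega⟩
        rw [h5]
        exact hd
      · intro j hj hjn v w hv hw
        rcases Nat.lt_succ_iff_lt_or_eq.1 hj with h8 | h8
        · exact hC j h8 hjn v w hv hw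
        · exact absurd (by rwa [show j = i from Fin.ext (by rw [hik]; exact h8)] at hjn) hneg

theorem outputs (C : NegCircuit (Fin r × Fin m)) : ∀ s : ℕ,
    ∀ out : Fin s → (Fin r × Fin m) ⊕ Fin C.size, ∃ a b, a ≤ b ∧
      m / 2 ^ (C.negations + s) ≤ (free a b).card ∧ Const C a b C.size ∧
        ∀ l, ∃ t, ∀ v, InBox a b v → C.node (inp v) (out l) = t := by
  intro s
  induction s with
  | zero =>
    intro out
    obtain ⟨a, b, h1, h2, h3⟩ := gates C C.size le_rfl
    refine ⟨a, b, h1, ?_, h3, fun l => l.elim0⟩
    have h4 : (univ.filter fun i : Fin C.size => C.neg i ∧ i.val < C.size) =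
        univ.filter fun i => C.neg i := by
      ext i
      simp [i.2]
    rw [h4] at h2
    exact h2
  | succ s ih =>
    intro out
    obtain ⟨a, b, h1, h2, h3, h4⟩ := ih fun l => out l.castSucc
    obtain ⟨a', b', h5, h6, h7, h8, t, ht⟩ := halve (r := r) h1 h2
      (fun v => C.node (inp v) (out (Fin.last s)))
      (fun v w hv hw hvw => mono_node C h3 (out (Fin.last s)) (fun j _ => j.2) v w hv hw hvw)
    refine ⟨a', b', h6, ?_, h3.mono h5 h7, ?_⟩
    · rw [← add_assoc, pow_succ, ← Nat.div_div_eq_div_mul]
      exact h8
    · intro l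
      induction l using Fin.lastCases with
      | last => exact ⟨t, ht⟩
      | cast l =>
        obtain ⟨t', ht'⟩ := h4 l
        exact ⟨t', fun v hv => ht' v (hv.mono h5 h7)⟩

theorem card_box {a b : Fin m → Bool} (hab : a ≤ b) :
    2 ^ (free a b).card ≤ (univ.filter fun u : Fin m → Bool => a ≤ u ∧ u ≤ b).card := by
  rw [← card_powerset]
  refine card_le_card_of_injOn (fun T c => a c || decide (c ∈ T)) ?_ ?_
  · intro T hT
    rw [mem_coe, mem_powerset] at hT
    rw [mem_coe, mem_filter]
    refine ⟨mem_univ _, ?_, ?_⟩
    · intro c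
      show a c ≤ (a c || decide (c ∈ T))
      cases a c <;> simp
    · intro c
      have h1 := hab c
      by_cases hc : c ∈ T
      · have h2 := (mem_filter.1 (hT hc)).2.2
        rw [h2]
        exact Bool.le_true _
      · simpa [hc] using h1
  · intro T hT T' hT' h
    rw [mem_coe, mem_powerset] at hT hT'
    ext c
    have h1 := congrFun h c
    simp only at h1
    constructor
    · intro hc
      have h2 := (mem_filter.1 (hT hc)).2.1
      rw [h2] at h1
      simpa [hc] using h1
    · intro hc
      have h2 := (mem_filter.1 (hT' hc)).2.1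
      rw [h2] at h1
      simpa [hc] using h1

/-- a large set of vertices all of whose tuples get the same colour -/
theorem main (C : NegCircuit (Fin r × Fin m)) {s : ℕ}
    (out : Fin s → (Fin r × Fin m) ⊕ Fin C.size) : ∃ S : Finset (Fin m → Bool),
      2 ^ (m / 2 ^ (C.negations + s)) ≤ S.card ∧ ∃ t : Fin s → Bool,
        ∀ v : Fin r → Fin m → Bool, (∀ i, v i ∈ S) → ∀ l, C.node (inp v) (out l) = t l := by
  obtain ⟨a, b, h1, h2, -, h4⟩ := outputs C s out
  choose t ht using h4
  refine ⟨univ.filter fun u : Fin m → Bool => a ≤ u ∧ u ≤ b, ?_, t, ?_⟩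
  · exact (Nat.pow_le_pow_right (by norm_num) h2).trans (card_box h1)
  · intro v hv l
    exact ht l v fun i => (mem_filter.1 (hv i)).2

end

end Pool.Agent.V11201.NG
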