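import Pool.Agent.V11201.NG.Box

set_option autoImplicit false

/-!
Markov's theorem: every Boolean function of `M < 2 ^ K` variables is computed with `K` negations.
-/

namespace Pool.Agent.V11201.NG

open Finset
open scoped Classical

section

variable {I : Type} [Fintype I]

/-- the weight -/
def wgt (x : I → Bool) : ℕ := (univ.filter fun i => x i = true).card

theorem wgt_mono {x y : I → Bool} (h : x ≤ y) : wgt x ≤ wgt y := by
  refine card_le_card fun i hi => ?_
  rw [mem_filter] at hi ⊢
  refine ⟨hi.1, ?_⟩
  have := h i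
  rw [hi.2] at this
  exact Bool.eq_true_of_true_le this

theorem eq_of_wgt {x y : I → Bool} (h : x ≤ y) (hw : wgt x = wgt y) : x = y := by
  have h1 : (univ.filter fun i => x i = true) = univ.filter fun i => y i = true := by
    refine eq_of_subset_of_card_le (fun i hi => ?_) (le_of_eq hw.symm)
    rw [mem_filter] at hi ⊢
    refine ⟨hi.1, ?_⟩
    have := h i
    rw [hi.2] at this
    exact Bool.eq_true_of_true_le this
  funext i
  have h2 : i ∈ (univ.filter fun i => x i = true) ↔ i ∈ univ.filter fun i => y i = true := by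
    rw [h1]
  simp only [mem_filter, mem_univ, true_and] at h2
  cases hx : x i <;> cases hy : y i <;> simp_all

theorem bit_mono {a b q : ℕ} (hab : a ≤ b) (h : a / 2 ^ (q + 1) = b / 2 ^ (q + 1)) :
    a.testBit q ≤ b.testBit q := by
  have h1 : a / 2 ^ q ≤ b / 2 ^ q := Nat.div_le_div_right hab
  have h2 : a / 2 ^ q / 2 = b / 2 ^ q / 2 := by
    rw [Nat.div_div_eq_div_mul, Nat.div_div_eq_div_mul, ← pow_succ, h]
  rw [Nat.testBit_eq_decide_div_mod_eq, Nat.testBit_eq_decide_div_mod_eq]
  by_cases h3 : a / 2 ^ q % 2 = 1
  · have h4 : b / 2 ^ q % 2 = 1 := by omega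
    simp [h3, h4]
  · simp [h3]

/-- the values of the gates: bit, negated bit, ..., and the function itself -/
def mval (K : ℕ) (f : (I → Bool) → Bool) (x : I → Bool) (g : Fin (2 * K + 1)) : Bool :=
  if g.val = 2 * K then f x
  else if g.val % 2 = 0 then (wgt x).testBit (K - 1 - g.val / 2)
  else !((wgt x).testBit (K - 1 - g.val / 2))

theorem high_eq {K : ℕ} {a b q : ℕ} (ha : a < 2 ^ K) (hb : b < 2 ^ K)
    (h : ∀ j, q < j → j < K → a.testBit j = b.testBit j) :
    a / 2 ^ (q + 1) = b / 2 ^ (q + 1) := by
  refine Nat.eq_of_testBit_eq fun i => ?_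
  rw [Nat.testBit_div_two_pow, Nat.testBit_div_two_pow]
  by_cases hi : i + (q + 1) < K
  · exact h _ (by omega) hi
  · have hK : 2 ^ K ≤ 2 ^ (i + (q + 1)) := Nat.pow_le_pow_right (by norm_num) (by omega)
    rw [Nat.testBit_lt_two_pow (lt_of_lt_of_le ha hK), Nat.testBit_lt_two_pow
      (lt_of_lt_of_le hb hK)]

/-- every function of fewer than `2 ^ K` variables is computed by a circuit with `K` NOT gates -/
theorem markov {K : ℕ} (hK : Fintype.card I < 2 ^ K) (f : (I → Bool) → Bool) :
    ∃ (C : NegCircuit I) (o : I ⊕ Fin C.size), C.negations ≤ K ∧ ∀ x, C.node x o = f x := by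
  have hw : ∀ x : I → Bool, wgt x < 2 ^ K := fun x => lt_of_le_of_lt (card_le_univ _) hK
  obtain ⟨V, hV⟩ : ∃ V : (I → Bool) → Fin (2 * K + 1) → Bool, V = mval K f := ⟨_, rfl⟩
  have hbit : ∀ (x : I → Bool) (j : ℕ) (hj : j < K),
      V x ⟨2 * j, by omega⟩ = (wgt x).testBit (K - 1 - j) := by
    intro x j hj
    rw [hV]
    unfold mval
    rw [if_neg (by simp; omega), if_pos (by simp)]
    simp
  have hnbit : ∀ (x : I → Bool) (j : ℕ) (hj : j < K),
      V x ⟨2 * j + 1, by omega⟩ = !((wgt x).testBit (K - 1 - j)) := by
    intro x j hj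
    rw [hV]
    unfold mval
    rw [if_neg (by simp; omega), if_neg (by simp)]
    have : (2 * j + 1) / 2 = j := by omega
    simp [this]
  have hlast : ∀ x, V x ⟨2 * K, by omega⟩ = f x := by
    intro x
    rw [hV]
    unfold mval
    rw [if_pos rfl]
  -- equal bits
  have heq : ∀ (x y : I → Bool) (k : ℕ), k ≤ K →
      (∀ j : Fin (2 * K + 1), j.val < 2 * k → V x j ≤ V y j) →
      ∀ j, j < k → (wgt x).testBit (K - 1 - j) = (wgt y).testBit (K - 1 - j) := by
    intro x y k hk h j hj
    have h1 := h ⟨2 * j, by omega⟩ (by show 2 * j < 2 * k; omega)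
    have h2 := h ⟨2 * j + 1, by omega⟩ (by show 2 * j + 1 < 2 * k; omega)
    rw [hbit x j (by omega), hbit y j (by omega)] at h1
    rw [hnbit x j (by omega), hnbit y j (by omega)] at h2
    revert h1 h2
    cases (wgt x).testBit (K - 1 - j) <;> cases (wgt y).testBit (K - 1 - j) <;> simp
  have hkey : ∀ i : Fin (2 * K + 1), ¬ (i.val % 2 = 1) → ∀ x y : I → Bool, x ≤ y →
      (∀ j, j < i → V x j ≤ V y j) → V x i ≤ V y i := by
    intro i hi x y hxy h
    by_cases hl : i.val = 2 * K
    · have h1 := heq x y K le_rfl fun j hj => h j (by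
        show j.val < i.val
        omega)
      have h2 : wgt x = wgt y := by
        refine Nat.eq_of_testBit_eq fun q => ?_
        by_cases hq : q < K
        · have := h1 (K - 1 - q) (by omega)
          have e : K - 1 - (K - 1 - q) = q := by omega
          rwa [e] at this
        · have hK2 : 2 ^ K ≤ 2 ^ q := Nat.pow_le_pow_right (by norm_num) (by omega)
          rw [Nat.testBit_lt_two_pow (lt_of_lt_of_le (hw x) hK2),
            Nat.testBit_lt_two_pow (lt_of_lt_of_le (hw y) hK2)]
      rw [eq_of_wgt hxy h2]
    · have hi2 := i.2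
      obtain ⟨k, hk⟩ : ∃ k, i.val = 2 * k := ⟨i.val / 2, by omega⟩
      have hkK : k < K := by omega
      have hie : i = ⟨2 * k, by omega⟩ := Fin.ext hk
      have h1 := heq x y k hkK.le fun j hj => h j (by
        show j.val < i.val
        omega)
      rw [hie, hbit x k hkK, hbit y k hkK]
      refine bit_mono (wgt_mono hxy) (high_eq (hw x) (hw y) fun j hj1 hj2 => ?_)
      have := h1 (K - 1 - j) (by omega)
      have e : K - 1 - (K - 1 - j) = j := by omega
      rwa [e] at this
  let C : NegCircuit I :=
    { size := 2 * K + 1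
      neg := fun i => i.val % 2 = 1
      arg := fun i => Sum.inr ⟨i.val - 1, by have := i.2; omega⟩
      op := fun i X U => decide (∃ x, x ≤ X ∧ (∀ j, j < i → V x j ≤ U j) ∧ V x i = true)
      val := V
      arg_lt := by
        intro i hi j hj
        have h1 := Sum.inr.inj hj
        rw [← h1]
        show i.val - 1 < i.val
        have : i.val % 2 = 1 := hi
        omega
      val_neg := by
        intro i hi x
        have hi' : i.val % 2 = 1 := hi
        have hi2 := i.2
        obtain ⟨k, hk⟩ : ∃ k, i.val = 2 * k + 1 := ⟨i.val / 2, by omega⟩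
        have hkK : k < K := by omega
        have hie : i = ⟨2 * k + 1, by omega⟩ := Fin.ext hk
        show V x i = !(V x ⟨i.val - 1, by omega⟩)
        have hie2 : (⟨i.val - 1, by omega⟩ : Fin (2 * K + 1)) = ⟨2 * k, by omega⟩ :=
          Fin.ext (by show i.val - 1 = 2 * k; omega)
        rw [hie2, hbit x k hkK, hie, hnbit x k hkK]
      mono := by
        intro i _ x y u v hxy huv
        show decide _ ≤ decide _
        by_cases h : ∃ z, z ≤ x ∧ (∀ j, j < i → V z j ≤ u j) ∧ V z i = true
        · have h2 : ∃ z, z ≤ y ∧ (∀ j, j < i → V z j ≤ v j) ∧ V z i = true := by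
            obtain ⟨z, h3, h4, h5⟩ := h
            exact ⟨z, h3.trans hxy, fun j hj => (h4 j hj).trans (huv j), h5⟩
          rw [decide_eq_true h, decide_eq_true h2]
        · rw [decide_eq_false h]
          exact Bool.false_le _
      val_op := by
        intro i hi x
        show V x i = decide (∃ z, z ≤ x ∧ (∀ j, j < i → V z j ≤
          (decide (j < i) && V x j)) ∧ V z i = true)
        cases hx : V x i
        · symm
          rw [decide_eq_false_iff_not]
          rintro ⟨z, h3, h4, h5⟩
          have h6 := hkey i hi z x h3 fun j hj => by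
            have := h4 j hj
            simpa [hj] using this
          rw [h5, hx] at h6
          exact absurd h6 (by decide)
        · symm
          rw [decide_eq_true_iff]
          exact ⟨x, le_refl x, fun j hj => by simp [hj], hx⟩ }
  refine ⟨C, Sum.inr ⟨2 * K, by show 2 * K < 2 * K + 1; omega⟩, ?_, fun x => hlast x⟩
  have e0 : C.negations = (univ.filter fun i : Fin (2 * K + 1) => i.val % 2 = 1).card := by
    unfold NegCircuit.negations
    congr
  rw [e0]
  calc (univ.filter fun i : Fin (2 * K + 1) => i.val % 2 = 1).card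
      ≤ (Finset.range K).card := by
        refine card_le_card_of_injOn (fun i => i.val / 2) ?_ ?_
        · intro i hi
          rw [mem_coe, mem_filter] at hi
          rw [mem_coe, mem_range]
          have := i.2
          show i.val / 2 < K
          omega
        · intro i hi j hj hij
          rw [mem_coe, mem_filter] at hi hj
          have hij' : i.val / 2 = j.val / 2 := hij
          exact Fin.ext (by omega)
    _ = K := card_range K

end

end Pool.Agent.V11201.NG
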